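import Pool.Agent.Y478.DA.Extra

/-!
# MP_153b2f_an: a minimal action of a virtually free abelian group on a compact space

Stronger form of the starting result `FiniteDADNotFDC` (some étale groupoid of dynamic asymptotic
dimension at most two): the groupoid is the transformation groupoid of a minimal action of a
finitely generated virtually `ℤ²` group on a compact metrizable totally disconnected space, and its
dynamic asymptotic dimension is exactly two.
-/

set_option autoImplicit false

namespace Pool.Agent.Results.MP_153b2f_an.MinimalCantorAction

open H812R4 Pool.Agent.Y478.DA

/-- There is an action of a finitely generated group `Γ`, which has a normal subgroup of finite index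
isomorphic to `ℤ²`, by homeomorphisms on a compact Hausdorff, second countable, totally disconnected
space `X` with all orbits dense, whose transformation groupoid has dynamic asymptotic dimension
exactly two and does not have finite dynamical complexity (in either reading of relative
compactness in the definition of decomposability). -/
theorem result : ∃ (Γ X : Type) (_ : Group Γ) (_ : TopologicalSpace X) (_ : MulAction Γ X)
    (_ : T2Space X) (_ : LocallyCompactSpace X) (_ : ContinuousConstSMul Γ X)
    (_ : TopologicalSpace Γ) (_ : DiscreteTopology Γ),
    Group.FG Γ ∧
    (∃ N : Subgroup Γ, N.Normal ∧ N.FiniteIndex ∧ Nonempty (N ≃* Multiplicative (ℤ × ℤ))) ∧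
    CompactSpace X ∧ Nonempty X ∧ SecondCountableTopology X ∧ TotallyDisconnectedSpace X ∧
    (∀ x : X, Dense (MulAction.orbit Γ x)) ∧
    (transG Γ X).DADLE 2 ∧ ¬ (transG Γ X).DADLE 1 ∧
    ¬ (transG Γ X).FDC ∧ ¬ (transG Γ X).FDCRel :=
  ⟨Gam, X2, inferInstance, inferInstance, inferInstance, inferInstance, inferInstance,
    inferInstance, inferInstance, inferInstance, fg_Gam,
    ⟨trHom.range, normal_range, finiteIndex_range,
      ⟨(MonoidHom.ofInjective trHom_injective).symm⟩⟩,
    inferInstance, inferInstance, secondCountable_X2, totallyDisconnected_X2, dense_orbit,
    DADLE_two, not_DADLE_one, not_FDC, not_FDCRel⟩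

end Pool.Agent.Results.MP_153b2f_an.MinimalCantorAction
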